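import Pool.Agent.H838.CFDualConv

/-!
# Self-dual Chow-Kunneth decompositions of powers, with coefficients in a field

`𝒱` is a class of smooth projective geometrically irreducible varieties over the field `k` closed
under products (for example all of them), `C` the Chow groups with rational coefficients (in the
form of their formal properties, `IsChowProj`), and `H` a Weil cohomology theory (`IsWeilProj`).
`ChF F C` are the Chow groups with coefficients in a field `F` of characteristic zero, and
`CKF F X H p` says that `p` is a Chow-Kunneth decomposition of `X` with coefficients in `F`, which is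
self-dual (`SelfDualF`) if the transpose of `p i` is `p (2 dim X - i)` for all `i`. `pw X n` is the
power of `X` with `n + 1` factors, `sq X n` the power with `2 ^ n` factors.

Let `X` have a Chow-Kunneth decomposition with coefficients in `F`, on which no condition of
duality is imposed.

1. If `-1` is a square in `F`, then `X × X` has a self-dual Chow-Kunneth decomposition with
   coefficients in `F`.
2. If `-1` is a sum of `2 ^ n` squares in `F`, then so has the power of `X` with `2 ^ (n + 1)`
   factors.
3. If `F` is a number field of degree `m + 1`, and `-1` is a sum of `2 ^ n` squares in another field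
   `E` of characteristic zero, then the power of `X` with `(m + 1) * 2 ^ (n + 1)` factors has a
   self-dual Chow-Kunneth decomposition with coefficients in `E`.
4. If `F` is arbitrary and `-1` is a sum of squares in `E`, then some power of `X` has a self-dual
   Chow-Kunneth decomposition with coefficients in `E`.

For the proof of 2, take the degree operators `Γ` of the decomposition and `Γ' = 2 dim X - ᵗΓ` of the
transposed one, and `D = ∑ Γ_i + ∑ Γ'_j` on the power, with `Γ` on one half of the factors and `Γ'`
on the other half. Let `τ` be the exchange of the halves, so that `ᵗD = M - τ D τ`. If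
`-1` is a sum of `2 ^ n` squares, then there is a combination `S` of permutations of the factors with
`ᵗS ∘ S = S ∘ ᵗS = τ` (a form of the theorem of Pfister on multiplicative quadratic forms), and
`S D S⁻¹` is a self-dual degree operator. For 3 and 4, this is combined with a Galois twist of a
power of `X`.
-/

set_option autoImplicit false

universe u v w t s

namespace Pool.Agent.Results.MP_8a7054_ag.SelfDualPowers

open Pool.Agent.H914 Pool.Agent.H914.VarClass Pool.Agent.H914.VarClass.Obj Pool.Agent.W492.BB
  Pool.Agent.W550.Corr Pool.Agent.TH133 Pool.Agent.H838.CF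

theorem result {k : Type u} [Field k] {𝒱 : VarClass k} (C : TheoryData.{u, v, 0} 𝒱 ℚ)
    [IsChowProj C] {K : Type w} [Field K] (H : WeilTheoryData.{u, v, w} C K) [IsWeilProj H]
    (X : 𝒱.Obj) (F : Type t) [Field F] [Algebra ℚ F] (hX : ∃ p, CKF F X H p) :
    (IsSquare (-1 : F) → ∃ P, CKF F (X.prod X) H P ∧ SelfDualF F (X.prod X) P) ∧
    (∀ n : ℕ, (∃ x : Fin (2 ^ n) → F, ∑ i, x i * x i = -1) →
      ∃ P, CKF F (sq X (n + 1)) H P ∧ SelfDualF F (sq X (n + 1)) P) ∧
    (∀ (m : ℕ), Module.finrank ℚ F = m + 1 → ∀ (E : Type s) [Field E] [Algebra ℚ E] (n : ℕ),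
      (∃ x : Fin (2 ^ n) → E, ∑ i, x i * x i = -1) →
        ∃ P, CKF E (sq (pw X m) (n + 1)) H P ∧ SelfDualF E (sq (pw X m) (n + 1)) P) ∧
    (∀ (E : Type s) [Field E] [Algebra ℚ E], IsSumSq (-1 : E) →
      ∃ m n : ℕ, ∃ P, CKF E (sq (pw X m) n) H P ∧ SelfDualF E (sq (pw X m) n) P) := by
  refine ⟨fun h => ?_, fun n h => ?_, fun m hm E _ _ n h => ?_, fun E _ _ h => ?_⟩
  · obtain ⟨u, hu⟩ := h
    exact selfDual_sq (n := 0) ⟨u, hu⟩ hX
  · obtain ⟨x, hx⟩ := h
    exact selfDual_sq (ss_of_sum n _ x hx) hX
  · obtain ⟨x, hx⟩ := h
    exact selfDual_sq (ss_of_sum n _ x hx) (exists_pw_nf hm hX)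
  · obtain ⟨n, hn⟩ := exists_ss h
    obtain ⟨m, hm⟩ := exists_pw (E := E) hX
    exact ⟨m, n + 1, selfDual_sq hn hm⟩

end Pool.Agent.Results.MP_8a7054_ag.SelfDualPowers
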